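import Pool.Agent.H7.TRI.Stmts

/-!
Row AR1 of board tri (MP_fd41b2_co).
-/

set_option autoImplicit false

namespace Pool.TRI

theorem AR1_thm : AR1Stmt := by
  intro d m s x i l j2 jp j3 I B hd hm hsx hs hx hi hl hj2 hjp hj3 hI h3x hxs hmi hj2I hjpl hB
  have hmin : min (2 * s) (d + x - 4) = 2 * s := by
    apply min_eq_left
    omega
  rw [hmin]
  have hbr : 6 * m - (d + 1) ≤ -(s + 1) + 2 * i + l + 4 * (j2 + jp) + 5 * j3 := by omega
  have h1 : s * (6 * m - (d + 1)) ≤ s * (-(s + 1) + 2 * i + l + 4 * (j2 + jp) + 5 * j3) :=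
    mul_le_mul_of_nonneg_left hbr (by omega)
  have h2 : s * (-(s + 1) + 2 * i + l + 4 * (j2 + jp) + 5 * j3) ≤
      -(s + 1) * s + i * (2 * s) + B + l * s := by
    have : s * (-(s + 1) + 2 * i + l + 4 * (j2 + jp) + 5 * j3) =
      -(s + 1) * s + i * (2 * s) + (4 * s * (j2 + jp) + 5 * s * j3) + l * s := by ring
    rw [this]
    omega
  refine le_trans ?_ (le_trans h1 h2)
  by_cases hc : 0 ≤ 6 * m - (d + 1)
  · refine le_trans (min_le_left _ _) ?_
    exact mul_nonneg (by omega) hc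
  · refine le_trans (min_le_right _ _) ?_
    have h3 : 0 ≤ (d - 1 - s) * -(6 * m - (d + 1)) :=
      mul_nonneg (by omega) (by omega)
    nlinarith

end Pool.TRI
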